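import Pool.Agent.H87.CLG.Targets

/-! Row RWO of `lgr_modules`: the order of the monomials of the free module is a well-order. -/

set_option autoImplicit false

open MvPolynomial
open scoped commutatorElement

namespace Pool.Agent.H79.CLG

open Pool.Agent.H87.CLG

theorem pf_RWO : T_RWO := by
  intro Λ n r hr
  haveI := hr.wo
  have h : (Rm r : Mo Λ × Fin n → Mo Λ × Fin n → Prop) = Prod.Lex r (· < ·) := by
    funext p q
    exact propext (Prod.lex_def.symm)
  rw [h]
  infer_instance

end Pool.Agent.H79.CLG
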